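import Pool.Agent.Q325.ResetMealy
import Pool.Agent.H622R2.CoNP

/-!
# Recognising reset Mealy automata is `PSPACE`-hard

Reduction from systems of tokens (in other words, from the intersection problem for finite
automata).  Letters: the letters of the finite automata, and `s`, `r`, `r'`.  States: the states of
the finite automata and four states `c`, `d`, `k`, `e`.  The letter `s` sends each finite automaton
to its initial state, fixes `e` and sends `c`, `d`, `k` to `k`; the letter `r` sends accepting
states, `k` and `e` to `c` and the other states of the finite automata to `d`, and `r'` sends `k`
to `d` and all states of the finite automata and `e` to `c`; all other letters, and `r`, `r'`, fix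
`c`, `d`.  The output is equal to the input, except that `k` answers `r'` to `r`.  If no word is
accepted by all finite automata, then a word is synchronizing iff it contains `s` after one of the
letters `r`, `r'`, and this property passes to all output words.  If `w` is accepted by all of
them, then `s w r` is synchronizing, but the output word `c ∘ s w r = s w r'` is not.
-/

namespace Pool.Agent.Results.MP_5adc07_lc.ResetPSPACEHard

open Pool.Agent.NPC Pool.Agent.H623R2.PS Pool.Agent.Q325.RM Pool.Agent.H622R2

/-- Deciding whether a Mealy automaton is reset is `PSPACE`-hard under polynomial-time many-one
reductions; in particular the problem is in `NP` (in `P`) only if all of `PSPACE` is. -/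
theorem result :
    PSPACEHard (lang Mealy.Reset) ∧
    (InNP (lang Mealy.Reset) → ∀ L : Set (List Bool), Pool.Agent.H623R2.PS.InPSPACE L → InNP L) ∧
    (InP (lang Mealy.Reset) → ∀ L : Set (List Bool), Pool.Agent.H623R2.PS.InPSPACE L → InP L) :=
  ⟨reset_hard, fun h L hL => InNP.of_reduces (reset_hard L hL) h,
    fun h L hL => InP.of_reduces (reset_hard L hL) h⟩

end Pool.Agent.Results.MP_5adc07_lc.ResetPSPACEHard
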